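import Pool.Agent.V11127.CubeB

/-!
The combined edge and vertex capacitated flow bound in the directed hypercube fails.
-/

namespace Pool.Agent.Results.MP_02b125_co.FlowFails

open Finset Pool.Agent.V11127.CubeA

/-- The vertices of the `d`-dimensional hypercube: the `0-1` vector `x` is identified with the set
of coordinates where it equals `1`. So `x ≺ y` is `x ⊂ y`, and `|x|` is `x.card`. -/
abbrev Cube (d : ℕ) := Finset (Fin d)

/-- `(A, φ(A); φ)` is a matched pair with `A ⊆ S` and `φ(A)` disjoint from `S`. -/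
def IsMatched {d : ℕ} (S A : Finset (Cube d)) (φ : Cube d → Cube d) : Prop :=
  (∀ a ∈ A, a ∈ S) ∧ (∀ a ∈ A, φ a ∉ S) ∧ (∀ a ∈ A, a ⊂ φ a) ∧
    ∀ a ∈ A, ∀ a' ∈ A, φ a = φ a' → a = a'

/-- The directed volume. -/
noncomputable def dvol {d : ℕ} (S : Finset (Cube d)) : ℕ :=
  sSup {n | ∃ A φ, IsMatched S A φ ∧ A.card = n}

/-- The separation distance: the minimum of the average distance over all directed volume
certificates. -/
noncomputable def sepDist {d : ℕ} (S : Finset (Cube d)) : ℝ :=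
  sInf {q | ∃ A φ, IsMatched S A φ ∧ A.card = dvol S ∧
    q = (∑ a ∈ A, (((φ a).card : ℝ) - (a.card : ℝ))) / (A.card : ℝ)}

/-- A feasible flow in the flow network for `S` with edge capacity `cE` and vertex capacity `cV`:
`edge x y` is the flow on the edge `x → y`, `src x` the flow from the source node into `x` and
`snk x` the flow from `x` into the sink node. -/
structure Flow {d : ℕ} (S : Finset (Cube d)) (cE cV : ℝ) where
  /-- flow on edges -/
  edge : Cube d → Cube d → ℝ
  /-- flow on the arcs leaving the source -/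
  src : Cube d → ℝ
  /-- flow on the arcs entering the sink -/
  snk : Cube d → ℝ
  edge_nonneg : ∀ x y, 0 ≤ edge x y
  edge_supp : ∀ x y, ¬ (x ⊂ y ∧ y.card = x.card + 1) → edge x y = 0
  edge_le : ∀ x y, x ⊂ y → y.card = x.card + 1 → edge x y ≤ cE
  src_nonneg : ∀ x, 0 ≤ src x
  src_supp : ∀ x, x ∉ S → src x = 0
  snk_nonneg : ∀ x, 0 ≤ snk x
  snk_supp : ∀ x, x ∈ S → snk x = 0
  conserve : ∀ x, src x + ∑ y, edge y x = snk x + ∑ y, edge x y
  vertex_le : ∀ x, src x + ∑ y, edge y x ≤ cV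

/-- The maximum flow value. -/
noncomputable def maxflow {d : ℕ} (S : Finset (Cube d)) (cE cV : ℝ) : ℝ :=
  sSup {v | ∃ F : Flow S cE cV, v = ∑ x, F.src x}

/-! ### directed volume and separation distance of the example -/

variable {t h : ℕ}

/-- all lower halves -/
def AA (t h : ℕ) : Finset (Cube (dm t h)) := A0 t h true ∪ A0 t h false

/-- all upper halves -/
def BB (t h : ℕ) : Finset (Cube (dm t h)) := B0 t h true ∪ B0 t h false

lemma mem_AA {x : Cube (dm t h)} : x ∈ AA t h ↔ ∃ b, x ∈ A0 t h b := by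
  simp [AA, or_comm]

lemma mem_BB {x : Cube (dm t h)} : x ∈ BB t h ↔ ∃ b, x ∈ B0 t h b := by
  simp [BB, or_comm]

lemma disjA : Disjoint (A0 t h true) (A0 t h false) := by
  rw [disjoint_left]
  intro x h1 h2
  have h3 := (mem_A0.1 h1).1.2
  have h4 := (mem_A0.1 h2).1.2
  rw [h3] at h4
  exact absurd h4 (by decide)

lemma disjB : Disjoint (B0 t h true) (B0 t h false) := by
  rw [disjoint_left]
  intro x h1 h2
  have h3 := (mem_B0.1 h1).1.2
  have h4 := (mem_B0.1 h2).1.2
  rw [h3] at h4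
  exact absurd h4 (by decide)

lemma card_AA : (AA t h).card = (t + 1) * 4 ^ h := by
  rw [AA, card_union_of_disjoint disjA, card_A0, card_A0]
  simp only [nb, if_true, Bool.false_eq_true, if_false]
  ring

lemma card_BB : (BB t h).card = (t + 1) * 4 ^ h := by
  rw [BB, card_union_of_disjoint disjB, card_B0, card_B0]
  simp only [nb, if_true, Bool.false_eq_true, if_false]
  ring

lemma matched_sub {A : Finset (Cube (dm t h))} {φ : Cube (dm t h) → Cube (dm t h)}
    (hm : IsMatched (SS t h) A φ) : A ⊆ AA t h ∧ ∀ a ∈ A, φ a ∈ BB t h := by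
  constructor
  · intro a ha
    obtain ⟨b, h1, -, -⟩ := pair_struct (hm.2.2.1 a ha).1 (hm.1 a ha) (hm.2.1 a ha)
    exact mem_AA.2 ⟨b, h1⟩
  · intro a ha
    obtain ⟨b, -, h1, -⟩ := pair_struct (hm.2.2.1 a ha).1 (hm.1 a ha) (hm.2.1 a ha)
    exact mem_BB.2 ⟨b, h1⟩

lemma exists_cert : ∃ φ, IsMatched (SS t h) (AA t h) φ := by
  choose ψ h1 h2 h3 using exists_match h
  have hAS : ∀ a ∈ AA t h, a ∈ SS t h := by
    intro a ha
    obtain ⟨b, hb⟩ := mem_AA.1 ha
    exact mem_SS.2 (Or.inr ⟨b, hb⟩)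
  let φ : Cube (dm t h) → Cube (dm t h) := fun x => mk (Lx x) (ψ (decide (0 ∈ Lx x)) (Rx x))
  have hb : ∀ b, ∀ a ∈ A0 t h b, φ a = mk (Lx a) (ψ b (Rx a)) := by
    intro b a ha
    have := (mem_A0.1 ha).1.2
    simp only [φ, this]
  have hB : ∀ b, ∀ a ∈ A0 t h b, φ a ∈ B0 t h b := by
    intro b a ha
    rw [hb b a ha, mem_B0, Lx_mk, Rx_mk]
    exact ⟨(mem_A0.1 ha).1, h1 b _ (mem_A0.1 ha).2⟩
  refine ⟨φ, hAS, ?_, ?_, ?_⟩
  · intro a ha
    obtain ⟨b, hb'⟩ := mem_AA.1 ha
    exact B0_notMem (hB b a hb')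
  · intro a ha
    obtain ⟨b, hb'⟩ := mem_AA.1 ha
    refine Finset.ssubset_iff_subset_ne.2 ⟨?_, ?_⟩
    · rw [hb b a hb', subset_iff', Lx_mk, Rx_mk]
      exact ⟨Subset.refl _, (h2 b _ (mem_A0.1 hb').2).1⟩
    · intro he
      have h5 := hAS a ha
      rw [he] at h5
      exact B0_notMem (hB b a hb') h5
  · intro a ha a' ha' he
    obtain ⟨b, hb1⟩ := mem_AA.1 ha
    obtain ⟨b', hb2⟩ := mem_AA.1 ha'
    rw [hb b a hb1, hb b' a' hb2] at he
    have h5 : Lx a = Lx a' := by
      have := congrArg Lx he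
      rwa [Lx_mk, Lx_mk] at this
    have h6 : b = b' := by
      rw [← (mem_A0.1 hb1).1.2, ← (mem_A0.1 hb2).1.2, h5]
    subst h6
    have h7 := congrArg Rx he
    rw [Rx_mk, Rx_mk] at h7
    exact ext' h5 (h3 b _ _ (mem_A0.1 hb1).2 (mem_A0.1 hb2).2 h7)

lemma dvol_eq : dvol (SS t h) = (t + 1) * 4 ^ h := by
  refine IsGreatest.csSup_eq ⟨?_, ?_⟩
  · obtain ⟨φ, hφ⟩ := exists_cert (t := t) (h := h)
    exact ⟨AA t h, φ, hφ, card_AA⟩
  · rintro n ⟨A, φ, hm, rfl⟩
    rw [← card_AA]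
    exact card_le_card (matched_sub hm).1

lemma cert_sum {A : Finset (Cube (dm t h))} {φ : Cube (dm t h) → Cube (dm t h)}
    (hm : IsMatched (SS t h) A φ) (hc : A.card = (t + 1) * 4 ^ h) :
    ∑ a ∈ A, (((φ a).card : ℝ) - (a.card : ℝ)) = (t + eh h) * 4 ^ h := by
  have h1 := matched_sub hm
  have hA : A = AA t h := eq_of_subset_of_card_le h1.1 (by rw [card_AA, hc])
  have hinj : Set.InjOn φ A := fun a ha a' ha' he => hm.2.2.2 a ha a' ha' he
  have himg : A.image φ = BB t h := by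
    apply eq_of_subset_of_card_le
    · intro x hx
      obtain ⟨a, ha, rfl⟩ := mem_image.1 hx
      exact h1.2 a ha
    · rw [card_image_of_injOn hinj, card_BB, hc]
  have h2 : ∑ a ∈ A, ((φ a).card : ℝ) = ∑ b ∈ BB t h, (b.card : ℝ) := by
    rw [← himg, sum_image hinj]
  rw [sum_sub_distrib, h2, hA, BB, AA, sum_union disjB, sum_union disjA]
  have h3 := sum_diff t h true
  have h4 := sum_diff t h false
  simp only [nb, Wt, if_true, Bool.false_eq_true, if_false] at h3 h4
  push_cast at h3 h4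
  linarith

lemma sepDist_eq : sepDist (SS t h) = (t + eh h) / (t + 1) := by
  have hset : {q : ℝ | ∃ A φ, IsMatched (SS t h) A φ ∧ A.card = dvol (SS t h) ∧
      q = (∑ a ∈ A, (((φ a).card : ℝ) - (a.card : ℝ))) / (A.card : ℝ)} =
      {((t : ℝ) + eh h) / (t + 1)} := by
    have hval : ∀ A φ, IsMatched (SS t h) A φ → A.card = dvol (SS t h) →
        (∑ a ∈ A, (((φ a).card : ℝ) - (a.card : ℝ))) / (A.card : ℝ) =
          ((t : ℝ) + eh h) / (t + 1) := by
      intro A φ hm hc
      rw [dvol_eq] at hc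
      rw [cert_sum hm hc, hc]
      push_cast
      have h5 : (4 : ℝ) ^ h ≠ 0 := by positivity
      rw [mul_div_mul_right _ _ h5]
    ext q
    constructor
    · rintro ⟨A, φ, hm, hc, rfl⟩
      exact hval A φ hm hc
    · intro hq
      rw [Set.mem_singleton_iff] at hq
      obtain ⟨φ, hφ⟩ := exists_cert (t := t) (h := h)
      have hc : (AA t h).card = dvol (SS t h) := by rw [card_AA, dvol_eq]
      exact ⟨AA t h, φ, hφ, hc, by rw [hq, hval _ _ hφ hc]⟩
  rw [sepDist, hset, csInf_singleton]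

/-! ### upper bound for flows -/

lemma cut {d : ℕ} {S : Finset (Cube d)} {cE cV : ℝ} (F : Flow S cE cV) (X : Finset (Cube d)) :
    ∑ x ∈ X, F.src x + ∑ x ∈ X, ∑ y ∈ Xᶜ, F.edge y x =
      ∑ x ∈ X, F.snk x + ∑ x ∈ X, ∑ y ∈ Xᶜ, F.edge x y := by
  have h1 : ∑ x ∈ X, (F.src x + ∑ y, F.edge y x) = ∑ x ∈ X, (F.snk x + ∑ y, F.edge x y) :=
    sum_congr rfl fun x _ => F.conserve x
  rw [sum_add_distrib, sum_add_distrib] at h1
  have h2 : ∑ x ∈ X, ∑ y, F.edge y x =
      ∑ x ∈ X, ∑ y ∈ X, F.edge y x + ∑ x ∈ X, ∑ y ∈ Xᶜ, F.edge y x := by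
    rw [← sum_add_distrib]
    exact sum_congr rfl fun x _ => (sum_add_sum_compl X _).symm
  have h3 : ∑ x ∈ X, ∑ y, F.edge x y =
      ∑ x ∈ X, ∑ y ∈ X, F.edge x y + ∑ x ∈ X, ∑ y ∈ Xᶜ, F.edge x y := by
    rw [← sum_add_distrib]
    exact sum_congr rfl fun x _ => (sum_add_sum_compl X _).symm
  have h4 : ∑ x ∈ X, ∑ y ∈ X, F.edge y x = ∑ x ∈ X, ∑ y ∈ X, F.edge x y := sum_comm
  linarith

lemma R2_zero {cE cV : ℝ} (F : Flow (SS t h) cE cV) :
    (∀ x ∈ R2 t h, F.src x = 0) ∧ ∀ x ∈ R2 t h, ∀ y ∉ R2 t h, F.edge y x = 0 := by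
  have h1 := cut F (R2 t h)
  have h2 : ∑ x ∈ R2 t h, F.snk x = 0 :=
    sum_eq_zero fun x hx => F.snk_supp x (mem_SS.2 (Or.inl hx))
  have h3 : ∑ x ∈ R2 t h, ∑ y ∈ (R2 t h)ᶜ, F.edge x y = 0 := by
    refine sum_eq_zero fun x hx => sum_eq_zero fun y hy => ?_
    apply F.edge_supp
    rintro ⟨h4, -⟩
    exact (mem_compl.1 hy) (R2_up h4.1 hx)
  rw [h2, h3, add_zero] at h1
  have h4 : 0 ≤ ∑ x ∈ R2 t h, F.src x := sum_nonneg fun x _ => F.src_nonneg x
  have h5 : 0 ≤ ∑ x ∈ R2 t h, ∑ y ∈ (R2 t h)ᶜ, F.edge y x :=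
    sum_nonneg fun x _ => sum_nonneg fun y _ => F.edge_nonneg y x
  have h6 : ∑ x ∈ R2 t h, F.src x = 0 := by linarith
  have h7 : ∑ x ∈ R2 t h, ∑ y ∈ (R2 t h)ᶜ, F.edge y x = 0 := by linarith
  constructor
  · exact (sum_eq_zero_iff_of_nonneg fun x _ => F.src_nonneg x).1 h6
  · intro x hx y hy
    have h8 := (sum_eq_zero_iff_of_nonneg
      (fun x _ => sum_nonneg fun y _ => F.edge_nonneg y x)).1 h7 x hx
    exact (sum_eq_zero_iff_of_nonneg fun y _ => F.edge_nonneg y x).1 h8 y (mem_compl.2 hy)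

lemma dict_bound {cV : ℝ} (F : Flow (SS t h) 1 cV) :
    ∑ x ∈ A0 t h false, F.src x ≤ t * 4 ^ h := by
  have h1 := cut F (A0 t h false)
  have h2 : ∑ x ∈ A0 t h false, F.snk x = 0 :=
    sum_eq_zero fun x hx => F.snk_supp x (mem_SS.2 (Or.inr ⟨false, hx⟩))
  have h3 : ∑ x ∈ A0 t h false, ∑ y ∈ (A0 t h false)ᶜ, F.edge x y ≤
      ∑ _x ∈ A0 t h false, (1 : ℝ) := by
    refine sum_le_sum fun x hx => ?_
    have hx' := mem_A0.1 hx
    have key : ∀ y ∈ (A0 t h false)ᶜ, F.edge x y ≤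
        if y = mk (Lx x) (insert 0 (Rx x)) then 1 else 0 := by
      intro y hy
      rw [mem_compl] at hy
      by_cases he : x ⊂ y ∧ y.card = x.card + 1
      · by_cases hR : y ∈ R2 t h
        · have hxR : x ∉ R2 t h := by
            intro h4
            have := mem_R2.1 h4
            have := hx'.1.1
            omega
          rw [(R2_zero F).2 y hR x hxR]
          split_ifs <;> norm_num
        · have h4 := subset_iff'.1 he.1.1
          have h5 := card_le_card h4.1
          have h6 : ¬ 2 ≤ (Lx y).card := fun h6 => hR (mem_R2.2 h6)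
          have h6' : (Lx x).card = 1 := hx'.1.1
          have h7 : Lx x = Lx y := eq_of_subset_of_card_le h4.1 (by omega)
          have h8 : ¬ Low h false (Rx y) := by
            intro h9
            refine hy (mem_A0.2 ⟨?_, h9⟩)
            rw [← h7]
            exact hx'.1
          have h9 : (0 : Fin (2 * h + 1)) ∈ Rx y := by
            by_contra h10
            exact h8 h10
          have h10 : (0 : Fin (2 * h + 1)) ∉ Rx x := hx'.2
          have h11 : insert 0 (Rx x) = Rx y := by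
            apply eq_of_subset_of_card_le
            · intro i hi
              rcases mem_insert.1 hi with rfl | hi
              · exact h9
              · exact h4.2 hi
            · rw [card_insert_of_notMem h10]
              have h12 := card_eq x
              have h13 := card_eq y
              rw [← h7] at h13
              have h14 := he.2
              omega
          have h12 : y = mk (Lx x) (insert 0 (Rx x)) := by
            apply ext'
            · rw [Lx_mk, h7]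
            · rw [Rx_mk, h11]
          rw [if_pos h12]
          exact F.edge_le x y he.1 he.2
      · rw [F.edge_supp x y he]
        split_ifs <;> norm_num
    refine (sum_le_sum key).trans ?_
    rw [sum_ite_eq']
    split_ifs <;> norm_num
  have h4 : 0 ≤ ∑ x ∈ A0 t h false, ∑ y ∈ (A0 t h false)ᶜ, F.edge y x :=
    sum_nonneg fun x _ => sum_nonneg fun y _ => F.edge_nonneg y x
  rw [sum_const, card_A0, nsmul_eq_mul, mul_one] at h3
  simp only [nb, Bool.false_eq_true, if_false] at h3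
  push_cast at h3
  linarith

lemma maj_bound {cE cV : ℝ} (F : Flow (SS t h) cE cV) :
    ∑ x ∈ A0 t h true, F.src x ≤ cV * 4 ^ h := by
  have h3 : ∑ x ∈ A0 t h true, F.src x ≤ ∑ _x ∈ A0 t h true, cV := by
    refine sum_le_sum fun x _ => ?_
    have h1 := F.vertex_le x
    have h2 : 0 ≤ ∑ y, F.edge y x := sum_nonneg fun y _ => F.edge_nonneg y x
    linarith
  rw [sum_const, card_A0, nsmul_eq_mul] at h3
  simp only [nb, if_true] at h3
  push_cast at h3
  linarith

lemma value_bound {cV : ℝ} (F : Flow (SS t h) 1 cV) :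
    ∑ x, F.src x ≤ (t + cV) * 4 ^ h := by
  have h1 : ∑ x, F.src x = ∑ x ∈ SS t h, F.src x := by
    symm
    apply sum_subset (subset_univ _)
    intro x _ hx
    exact F.src_supp x hx
  have h2 : ∑ x ∈ SS t h, F.src x ≤ ∑ x ∈ R2 t h, F.src x + ∑ x ∈ AA t h, F.src x := by
    have h3 := sum_union_inter (s₁ := R2 t h) (s₂ := AA t h) (f := F.src)
    have h4 : 0 ≤ ∑ x ∈ R2 t h ∩ AA t h, F.src x := sum_nonneg fun x _ => F.src_nonneg x
    have h5 : ∑ x ∈ SS t h, F.src x = ∑ x ∈ R2 t h ∪ AA t h, F.src x := rfl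
    linarith
  have h3 : ∑ x ∈ R2 t h, F.src x = 0 := sum_eq_zero fun x hx => (R2_zero F).1 x hx
  rw [h3, zero_add, AA, sum_union disjA] at h2
  have h4 := dict_bound F
  have h5 := maj_bound F
  rw [h1]
  linarith

/-- For every `c > 0` there are a dimension `d ≥ 2` and a set `S` of vertices of the
`d`-dimensional hypercube with directed volume at least `1` and separation distance `r` such that
the maximum flow of the network with unit edge capacities and vertex capacities `r ^ 2` is less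
than `c * r * dvol S`. -/
theorem result : ∀ c : ℝ, 0 < c → ∃ (d : ℕ) (S : Finset (Cube d)), 2 ≤ d ∧ 1 ≤ dvol S ∧
    maxflow S 1 (sepDist S ^ 2) < c * sepDist S * dvol S := by
  intro c hc
  set c₁ : ℝ := min c 1 with hc₁
  have h1 : 0 < c₁ := lt_min hc one_pos
  have h2 : c₁ ≤ c := min_le_left _ _
  have h3 : c₁ ≤ 1 := min_le_right _ _
  obtain ⟨t, ht⟩ := exists_nat_gt ((1 + 4 / c₁) ^ 2)
  have hτ : (1 : ℝ) ≤ 2 * (t + 1) / c₁ := by
    rw [le_div_iff₀ h1]
    have : (0 : ℝ) ≤ t := Nat.cast_nonneg t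
    linarith
  obtain ⟨h, he1, he2⟩ := exists_eh hτ
  have ht0 : (0 : ℝ) < (t : ℝ) + 1 := by positivity
  refine ⟨dm t h, SS t h, ?_, ?_, ?_⟩
  · have : (0 : ℝ) < t := lt_of_le_of_lt (by positivity) ht
    have : 0 < t := by exact_mod_cast this
    simp only [dm]
    omega
  · rw [dvol_eq]
    exact Nat.one_le_iff_ne_zero.2 (by positivity)
  · have hr : sepDist (SS t h) = (t + eh h) / (t + 1) := sepDist_eq
    set r := sepDist (SS t h) with hrdef
    have hr1 : 2 / c₁ ≤ r := by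
      rw [hr, le_div_iff₀ ht0]
      have h4 : 2 / c₁ * (t + 1) = 2 * (t + 1) / c₁ := by ring
      rw [h4]
      have : (0 : ℝ) ≤ t := Nat.cast_nonneg t
      linarith
    have hr2 : r ≤ 1 + 4 / c₁ := by
      rw [hr, div_le_iff₀ ht0]
      have h4 : (1 + 4 / c₁) * ((t : ℝ) + 1) = t + 1 + 2 * (2 * (t + 1) / c₁) := by
        field_simp
        ring
      rw [h4]
      linarith
    have hr0 : 0 < r := lt_of_lt_of_le (by positivity) hr1
    have hr3 : r ^ 2 < t := lt_of_le_of_lt (by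
      apply pow_le_pow_left₀ hr0.le hr2) ht
    have hr4 : 2 ≤ c * r := by
      have h5 : 2 ≤ c₁ * r := by
        rw [div_le_iff₀ h1] at hr1
        linarith
      have h6 : c₁ * r ≤ c * r := mul_le_mul_of_nonneg_right h2 hr0.le
      linarith
    have hmax : maxflow (SS t h) 1 (r ^ 2) ≤ (t + r ^ 2) * 4 ^ h := by
      apply Real.sSup_le
      · rintro v ⟨F, rfl⟩
        exact value_bound F
      · positivity
    refine lt_of_le_of_lt hmax ?_
    rw [dvol_eq]
    push_cast
    have h6 : (0 : ℝ) < 4 ^ h := by positivity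
    have h7 : (t : ℝ) + r ^ 2 < c * r * (t + 1) := by nlinarith
    calc ((t : ℝ) + r ^ 2) * 4 ^ h < (c * r * (t + 1)) * 4 ^ h :=
          mul_lt_mul_of_pos_right h7 h6
      _ = _ := by ring

end Pool.Agent.Results.MP_02b125_co.FlowFails
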